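import Mathlib

set_option autoImplicit false

/-!
# Flat versus free fundamental modules on infinite boundary graphs (MP_2ddb17_co, Q1)

We disprove the implication asked for in Q1: there is an infinite boundary graph `G` (which can even
be taken simple and connected) such that the fundamental module of every network on `G`, over every
commutative ring, is flat, while the fundamental module of one network over `ℤ` on `G` is not free.
-/

namespace Pool.Agent.Results.MP_2ddb17_co.FlatNotFree

open Finsupp

universe u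

/-- A boundary graph: a countable, locally finite, undirected multigraph, given by its vertices `V`
and its oriented edges `E`, where `src e` is the start vertex and `tgt e` the end vertex of `e`, and
`rev e` is the reversed edge, together with a set `interior` of interior vertices; the boundary
vertices are the vertices outside `interior`. -/
structure BoundaryGraph where
  /-- vertices -/
  V : Type
  /-- oriented edges -/
  E : Type
  /-- start vertex -/
  src : E → V
  /-- end vertex -/
  tgt : E → V
  /-- reversed edge -/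
  rev : E → E
  rev_rev : ∀ e, rev (rev e) = e
  rev_ne : ∀ e, rev e ≠ e
  src_rev : ∀ e, src (rev e) = tgt e
  countable : Countable V
  locallyFinite : ∀ x, {e | src e = x}.Finite
  /-- interior vertices -/
  interior : Set V

namespace BoundaryGraph

/-- The finite set `ℰ(x)` of oriented edges starting at `x`. -/
noncomputable def edgesFrom (G : BoundaryGraph) (x : G.V) : Finset G.E :=
  (G.locallyFinite x).toFinset

/-- No loops and no parallel edges. -/
def IsSimple (G : BoundaryGraph) : Prop :=
  (∀ e, G.src e ≠ G.tgt e) ∧ ∀ e e', G.src e = G.src e' → G.tgt e = G.tgt e' → e = e'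

/-- Any two vertices are joined by a path of edges. -/
def IsConnected (G : BoundaryGraph) : Prop :=
  Nonempty G.V ∧
    ∀ x y : G.V, Relation.ReflTransGen (fun a b => ∃ e, G.src e = a ∧ G.tgt e = b) x y

/-- A network over `R` on `G`: symmetric edge weights that are units of `R`, and an arbitrary
function `d : V → R`. -/
structure Network (G : BoundaryGraph) (R : Type u) [CommRing R] where
  /-- edge weights, units of `R` -/
  w : G.E → Rˣ
  w_rev : ∀ e, w (G.rev e) = w e
  /-- the potential -/
  d : G.V → R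

variable {G : BoundaryGraph} {R : Type u} [CommRing R]

/-- The generalized Laplacian of a network:
`L x = d x • x + ∑_{e ∈ ℰ(x)} w e • (x - e₋)` on the free module with basis `V`. -/
noncomputable def Network.laplacian (N : G.Network R) : (G.V →₀ R) →ₗ[R] (G.V →₀ R) :=
  Finsupp.linearCombination R fun x =>
    N.d x • single x (1 : R) +
      ∑ e ∈ G.edgesFrom x, (N.w e : R) • (single x (1 : R) - single (G.tgt e) (1 : R))

/-- The submodule `L(RV°)` of `RV`, where `RV°` is the submodule of those elements of the free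
module `RV` that are supported on the interior vertices. -/
noncomputable def Network.relations (N : G.Network R) : Submodule R (G.V →₀ R) :=
  (Finsupp.supported R R G.interior).map N.laplacian

/-- The fundamental module `Υ = RV / L(RV°)`. -/
abbrev Network.Upsilon (N : G.Network R) : Type u :=
  (G.V →₀ R) ⧸ N.relations

end BoundaryGraph

open BoundaryGraph

/-! ### Flatness -/

theorem flat_quotient {R : Type u} [CommRing R] {F : Type*} [AddCommGroup F] [Module R F]
    [Module.Flat R F] (K : Submodule R F)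
    (h : ∀ k ∈ K, ∃ θ : F →ₗ[R] F, (∀ v, θ v ∈ K) ∧ θ k = k) : Module.Flat R (F ⧸ K) := by
  refine Module.Flat.of_forall_isTrivialRelation ?_
  intro l f x hx
  choose v hv using fun i => Submodule.Quotient.mk_surjective K (x i)
  have hk : ∑ i, f i • v i ∈ K := by
    rw [← Submodule.Quotient.mk_eq_zero]
    have : (Submodule.Quotient.mk (∑ i, f i • v i) : F ⧸ K) = ∑ i, f i • x i := by
      rw [← Submodule.mkQ_apply, map_sum]
      simp [hv]
    rw [this, hx]
  obtain ⟨θ, hθK, hθ⟩ := h _ hk
  have h0 : ∑ i, f i • (v i - θ (v i)) = 0 := by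
    simp only [smul_sub, Finset.sum_sub_distrib]
    have : θ (∑ i, f i • v i) = ∑ i, f i • θ (v i) := by simp
    rw [← this, hθ, sub_self]
  obtain ⟨k, a, y, ha, hay⟩ := Module.Flat.isTrivialRelation_of_sum_smul_eq_zero h0
  refine ⟨k, a, fun j => Submodule.Quotient.mk (y j), fun i => ?_, hay⟩
  have h1 : (Submodule.Quotient.mk (v i - θ (v i)) : F ⧸ K) = x i := by
    rw [Submodule.Quotient.mk_sub, hv, (Submodule.Quotient.mk_eq_zero K).2 (hθK _), sub_zero]
  have h2 : v i - θ (v i) = ∑ j, a i j • y j := ha i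
  rw [← h1, h2, ← Submodule.mkQ_apply, map_sum]
  simp

theorem laplacian_single_apply_of_ne {G : BoundaryGraph} {R : Type u} [CommRing R]
    (N : G.Network R) {x y : G.V} (hxy : x ≠ y) :
    N.laplacian (single x 1) y =
      - ∑ e ∈ G.edgesFrom x, (N.w e : R) * (single (G.tgt e) (1 : R) y) := by
  simp only [Network.laplacian, linearCombination_single, one_smul, coe_add, coe_smul,
    Pi.add_apply, Pi.smul_apply, smul_eq_mul]
  rw [Finsupp.finsetSum_apply]
  simp [hxy]

/-- If every nonempty finite set of interior vertices is joined to some vertex outside it by exactly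
one edge, then every fundamental module is flat. -/
theorem flat_of_layerable (G : BoundaryGraph)
    (hG : ∀ S : Finset G.V, S.Nonempty → (S : Set G.V) ⊆ G.interior →
      ∃ e, G.src e ∈ S ∧ G.tgt e ∉ S ∧ ∀ e', G.src e' ∈ S → G.tgt e' = G.tgt e → e' = e)
    (R : Type u) [CommRing R] (N : G.Network R) : Module.Flat R N.Upsilon := by
  classical
  have key : ∀ n : ℕ, ∀ S : Finset G.V, S.card = n → (S : Set G.V) ⊆ G.interior →
      ∃ θ : (G.V →₀ R) →ₗ[R] (G.V →₀ R),
        (∀ v, θ v ∈ (Finsupp.supported R R G.interior).map N.laplacian) ∧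
        ∀ x ∈ S, θ (N.laplacian (single x 1)) = N.laplacian (single x 1) := by
    intro n
    induction n with
    | zero =>
      intro S hS _
      refine ⟨0, fun v => by simp, fun x hx => ?_⟩
      rw [Finset.card_eq_zero] at hS
      simp [hS] at hx
    | succ n ih =>
      intro S hS hSint
      have hne : S.Nonempty := by
        rw [← Finset.card_pos]; omega
      obtain ⟨e, heS, hetS, huniq⟩ := hG S hne hSint
      set x := G.src e with hx
      set y := G.tgt e with hy
      obtain ⟨θ, hθ1, hθ2⟩ := ih (S.erase x) (by rw [Finset.card_erase_of_mem heS]; omega)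
        (fun z hz => hSint (Finset.mem_of_mem_erase hz))
      have hρK : N.laplacian (single x 1) ∈ (Finsupp.supported R R G.interior).map N.laplacian :=
        Submodule.mem_map_of_mem (Finsupp.single_mem_supported R 1 (hSint heS))
      -- the coefficient of `y` in `L z` for `z ∈ S`
      have hcoef : ∀ z ∈ S, N.laplacian (single z 1) y = if z = x then -(N.w e : R) else 0 := by
        intro z hz
        have hzy : z ≠ y := fun h => hetS (h ▸ hz)
        rw [laplacian_single_apply_of_ne N hzy]
        split_ifs with hzx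
        · subst hzx
          congr 1
          rw [Finset.sum_eq_single e]
          · simp [hy]
          · intro e' he' hne'
            have he's : G.src e' = x := by simpa [edgesFrom] using he'
            rw [single_apply, if_neg, mul_zero]
            intro hte
            exact hne' (huniq e' (he's ▸ heS) hte)
          · intro hnot
            exact absurd (by simp [edgesFrom, hx]) hnot
        · rw [neg_eq_zero]
          refine Finset.sum_eq_zero fun e' he' => ?_
          have he's : G.src e' = z := by simpa [edgesFrom] using he'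
          rw [single_apply, if_neg, mul_zero]
          intro hte
          have := huniq e' (he's ▸ hz) hte
          exact hzx (by rw [← he's, this])
      set u : R := -((N.w e)⁻¹ : Rˣ) with hu
      set ρ := N.laplacian (single x 1) with hρ
      -- new retraction
      let p : (G.V →₀ R) →ₗ[R] R := Finsupp.lapply y
      let q : (G.V →₀ R) →ₗ[R] (G.V →₀ R) := (LinearMap.toSpanSingleton R (G.V →₀ R) (u • ρ)).comp p
      have hq : ∀ v, q v = (v y * u) • ρ := by
        intro v
        simp [q, p, LinearMap.toSpanSingleton_apply, smul_smul]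
      refine ⟨θ.comp (LinearMap.id - q) + q, fun v => ?_, fun z hz => ?_⟩
      · simp only [LinearMap.add_apply, LinearMap.comp_apply]
        refine Submodule.add_mem _ (hθ1 _) ?_
        rw [hq]
        exact Submodule.smul_mem _ _ hρK
      · simp only [LinearMap.add_apply, LinearMap.comp_apply, LinearMap.sub_apply,
          LinearMap.id_apply]
        rw [hq, hcoef z hz]
        by_cases hzx : z = x
        · subst hzx
          rw [if_pos rfl]
          have : (-(N.w e : R)) * u = 1 := by
            simp [hu]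
          rw [this, one_smul, sub_self, map_zero, zero_add]
        · rw [if_neg hzx, zero_mul, zero_smul, sub_zero, add_zero]
          exact hθ2 z (Finset.mem_erase.2 ⟨hzx, hz⟩)
  refine flat_quotient _ ?_
  rintro k ⟨v, hv, rfl⟩
  have hvs : ((v.support : Finset G.V) : Set G.V) ⊆ G.interior := by
    simpa [Finsupp.mem_supported] using hv
  obtain ⟨θ, hθ1, hθ2⟩ := key _ v.support rfl hvs
  refine ⟨θ, hθ1, ?_⟩
  have hv' : v = ∑ x ∈ v.support, v x • (single x (1 : R)) := by
    conv_lhs => rw [← Finsupp.sum_single v]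
    simp [Finsupp.sum]
  rw [hv']
  simp only [map_sum, map_smul]
  exact Finset.sum_congr rfl fun x hx => by rw [hθ2 x hx]

/-! ### The graph -/

/-- Vertices of the chain: `(0, n)` is `zₙ` (boundary), `(1, n)` is `xₙ` and `(2, n)` is `x'ₙ`
(interior). -/
abbrev Vtx : Type := Fin 3 × ℕ

/-- The arcs `zₙ → xₙ`, `xₙ → x'ₙ`, `xₙ → zₙ₊₁`, `x'ₙ → zₙ₊₁` of the chain. -/
def arc (a b : Vtx) : Prop :=
  (a.1 = 0 ∧ b.1 = 1 ∧ b.2 = a.2) ∨ (a.1 = 1 ∧ b.1 = 2 ∧ b.2 = a.2) ∨
    (a.1 = 1 ∧ b.1 = 0 ∧ b.2 = a.2 + 1) ∨ (a.1 = 2 ∧ b.1 = 0 ∧ b.2 = a.2 + 1)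

/-- Oriented edges of the chain. -/
abbrev Edg : Type := {p : Vtx × Vtx // arc p.1 p.2 ∨ arc p.2 p.1}

/-- The chain of blocks: all `zₙ` are boundary vertices, all `xₙ`, `x'ₙ` are interior. -/
abbrev chain : BoundaryGraph where
  V := Vtx
  E := Edg
  src e := e.1.1
  tgt e := e.1.2
  rev e := ⟨(e.1.2, e.1.1), e.2.symm⟩
  rev_rev _ := rfl
  rev_ne := by
    rintro ⟨⟨⟨i, n⟩, ⟨j, m⟩⟩, h⟩ heq
    simp only [Subtype.mk.injEq, Prod.mk.injEq] at heq
    obtain ⟨⟨h1, h2⟩, -⟩ := heq
    subst h1 h2
    simp only [arc] at h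
    omega
  src_rev _ := rfl
  countable := inferInstance
  locallyFinite := by
    rintro ⟨i, n⟩
    refine Set.Finite.of_finite_image (f := fun e => e.1.2)
      (Set.Finite.subset ((Finset.univ ×ˢ Finset.range (n + 2) : Finset Vtx).finite_toSet) ?_) ?_
    · rintro _ ⟨⟨⟨a, ⟨j, m⟩⟩, h⟩, rfl : a = _, rfl⟩
      simp only [arc] at h
      simp only [Finset.coe_product, Finset.coe_univ, Finset.coe_range, Set.mem_prod, Set.mem_univ,
        Set.mem_Iio, true_and]
      omega
    · rintro ⟨⟨a, b⟩, h⟩ (rfl : a = _) ⟨⟨a', b'⟩, h'⟩ (rfl : a' = _) (rfl : b = b')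
      rfl
  interior := {v | v.1 ≠ 0}

theorem chain_layerable (S : Finset chain.V) (hS : S.Nonempty)
    (hint : (S : Set chain.V) ⊆ chain.interior) :
    ∃ e, chain.src e ∈ S ∧ chain.tgt e ∉ S ∧
      ∀ e', chain.src e' ∈ S → chain.tgt e' = chain.tgt e → e' = e := by
  classical
  have hi : ∀ v : Vtx, v ∈ S → v.1 ≠ 0 := fun v hv => hint hv
  obtain ⟨v, hv, hmin⟩ := S.exists_min_image (fun v : Vtx => v.2) hS
  by_cases h1 : ((1, v.2) : Vtx) ∈ S
  · refine ⟨(⟨((1, v.2), (0, v.2)), Or.inr (Or.inl ⟨rfl, rfl, rfl⟩)⟩ : Edg), h1,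
      fun h => hi _ h rfl, ?_⟩
    rintro ⟨⟨⟨i, n⟩, b⟩, h⟩ hs (rfl : b = _)
    have hmin' : v.2 ≤ n := hmin _ hs
    have hi' : i ≠ 0 := hi _ hs
    simp only [arc] at h
    have : i = 1 ∧ n = v.2 := by omega
    obtain ⟨rfl, rfl⟩ := this
    rfl
  · have hv2 : v = (2, v.2) := by
      obtain ⟨i, n⟩ := v
      have hi' : i ≠ 0 := hi _ hv
      have : i ≠ 1 := by
        rintro rfl
        exact h1 hv
      have : i = 2 := by omega
      subst this
      rfl
    refine ⟨(⟨((2, v.2), (1, v.2)), Or.inr (Or.inr (Or.inl ⟨rfl, rfl, rfl⟩))⟩ : Edg), ?_, h1, ?_⟩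
    · have := hv
      rw [hv2] at this
      exact this
    rintro ⟨⟨⟨i, n⟩, b⟩, h⟩ hs (rfl : b = _)
    have hmin' : v.2 ≤ n := hmin _ hs
    have hi' : i ≠ 0 := hi _ hs
    simp only [arc] at h
    have : i = 2 ∧ n = v.2 := by omega
    obtain ⟨rfl, rfl⟩ := this
    rfl

theorem chain_isSimple : chain.IsSimple := by
  refine ⟨?_, ?_⟩
  · rintro ⟨⟨⟨i, n⟩, ⟨j, m⟩⟩, h⟩ heq
    simp only [Prod.mk.injEq] at heq
    obtain ⟨h1, h2⟩ := heq
    subst h1 h2
    simp only [arc] at h
    omega
  · rintro ⟨⟨a, b⟩, h⟩ ⟨⟨a', b'⟩, h'⟩ (rfl : a = _) (rfl : b = _)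
    rfl

theorem chain_isConnected : chain.IsConnected := by
  refine ⟨⟨((0, 0) : Vtx)⟩, ?_⟩
  have h01 : ∀ n : ℕ, Relation.ReflTransGen (fun a b : Vtx => ∃ e, chain.src e = a ∧
      chain.tgt e = b) (0, n) (1, n) := fun n =>
    Relation.ReflTransGen.single ⟨(⟨((0, n), (1, n)), Or.inl (Or.inl ⟨rfl, rfl, rfl⟩)⟩ : Edg),
      rfl, rfl⟩
  have h12 : ∀ n : ℕ, Relation.ReflTransGen (fun a b : Vtx => ∃ e, chain.src e = a ∧
      chain.tgt e = b) (1, n) (2, n) := fun n =>
    Relation.ReflTransGen.single
      ⟨(⟨((1, n), (2, n)), Or.inl (Or.inr (Or.inl ⟨rfl, rfl, rfl⟩))⟩ : Edg), rfl, rfl⟩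
  have h10 : ∀ n : ℕ, Relation.ReflTransGen (fun a b : Vtx => ∃ e, chain.src e = a ∧
      chain.tgt e = b) (1, n) (0, n + 1) := fun n =>
    Relation.ReflTransGen.single
      ⟨(⟨((1, n), (0, n + 1)), Or.inl (Or.inr (Or.inr (Or.inl ⟨rfl, rfl, rfl⟩)))⟩ : Edg), rfl, rfl⟩
  have h00 : ∀ n : ℕ, Relation.ReflTransGen (fun a b : Vtx => ∃ e, chain.src e = a ∧
      chain.tgt e = b) (0, 0) (0, n) := by
    intro n
    induction n with
    | zero => exact Relation.ReflTransGen.refl
    | succ n ih => exact (ih.trans (h01 n)).trans (h10 n)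
  have hall : ∀ x : Vtx, Relation.ReflTransGen (fun a b : Vtx => ∃ e, chain.src e = a ∧
      chain.tgt e = b) (0, 0) x := by
    rintro ⟨i, n⟩
    fin_cases i
    · exact h00 n
    · exact (h00 n).trans (h01 n)
    · exact ((h00 n).trans (h01 n)).trans (h12 n)
  intro x y
  refine Relation.ReflTransGen.trans ?_ (hall y)
  have := (Relation.reflTransGen_swap (r := fun a b : Vtx => ∃ e, chain.src e = a ∧
      chain.tgt e = b)).2 (hall x)
  exact Relation.ReflTransGen.mono (fun a b ⟨e, h1, h2⟩ => ⟨chain.rev e, h2, h1⟩) _ _ this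

/-- The network over `ℤ` on the chain with unit weights and `d = -2` at `xₙ`, `d = -1` at `x'ₙ`. -/
noncomputable def chainNetwork : chain.Network ℤ where
  w _ := 1
  w_rev _ := rfl
  d v := if v.1 = 1 then -2 else if v.1 = 2 then -1 else 0

theorem laplacian_x (n : ℕ) :
    chainNetwork.laplacian (single ((1, n) : Vtx) 1) =
      (single ((1, n) : Vtx) 1 - single ((0, n) : Vtx) 1 - single ((2, n) : Vtx) 1
        - single ((0, n + 1) : Vtx) 1 : Vtx →₀ ℤ) := by
  classical
  have hE : chain.edgesFrom ((1, n) : Vtx) =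
      ({⟨((1, n), (0, n)), Or.inr (Or.inl ⟨rfl, rfl, rfl⟩)⟩,
        ⟨((1, n), (2, n)), Or.inl (Or.inr (Or.inl ⟨rfl, rfl, rfl⟩))⟩,
        ⟨((1, n), (0, n + 1)), Or.inl (Or.inr (Or.inr (Or.inl ⟨rfl, rfl, rfl⟩)))⟩} :
          Finset Edg) := by
    ext ⟨⟨a, ⟨j, m⟩⟩, h⟩
    simp only [edgesFrom, Set.Finite.mem_toFinset, Finset.mem_insert,
      Finset.mem_singleton, Subtype.mk.injEq, Prod.mk.injEq]
    constructor
    · rintro (rfl : a = _)
      simp only [arc] at h
      simp only [true_and]
      omega
    · rintro (⟨rfl, -⟩ | ⟨rfl, -⟩ | ⟨rfl, -⟩) <;> rfl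
  simp only [Network.laplacian, linearCombination_single, one_smul]
  rw [hE, Finset.sum_insert, Finset.sum_insert, Finset.sum_singleton]
  · simp only [chainNetwork]
    simp only [Units.val_one, one_smul, if_true]
    module
  · simp
  · simp

theorem laplacian_x' (n : ℕ) :
    chainNetwork.laplacian (single ((2, n) : Vtx) 1) =
      (single ((2, n) : Vtx) 1 - single ((1, n) : Vtx) 1 - single ((0, n + 1) : Vtx) 1 :
        Vtx →₀ ℤ) := by
  classical
  have hE : chain.edgesFrom ((2, n) : Vtx) =
      ({⟨((2, n), (1, n)), Or.inr (Or.inr (Or.inl ⟨rfl, rfl, rfl⟩))⟩,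
        ⟨((2, n), (0, n + 1)), Or.inl (Or.inr (Or.inr (Or.inr ⟨rfl, rfl, rfl⟩)))⟩} :
          Finset Edg) := by
    ext ⟨⟨a, ⟨j, m⟩⟩, h⟩
    simp only [edgesFrom, Set.Finite.mem_toFinset, Finset.mem_insert,
      Finset.mem_singleton, Subtype.mk.injEq, Prod.mk.injEq]
    constructor
    · rintro (rfl : a = _)
      simp only [arc] at h
      simp only [true_and]
      omega
    · rintro (⟨rfl, -⟩ | ⟨rfl, -⟩) <;> rfl
  simp only [Network.laplacian, linearCombination_single, one_smul]
  rw [hE, Finset.sum_insert, Finset.sum_singleton]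
  · simp only [chainNetwork]
    simp only [Units.val_one, one_smul]
    have h1 : ((2 : Fin 3) = 1) = False := by simp
    simp only [h1, if_false, if_true]
    module
  · simp

/-- The class of `zₙ` in the fundamental module. -/
noncomputable def zcls (n : ℕ) : chainNetwork.Upsilon :=
  Submodule.Quotient.mk (single ((0, n) : Vtx) 1)

theorem one_mem_interior (n : ℕ) : ((1, n) : Vtx) ∈ chain.interior :=
  (by decide : (1 : Fin 3) ≠ 0)

theorem two_mem_interior (n : ℕ) : ((2, n) : Vtx) ∈ chain.interior :=
  (by decide : (2 : Fin 3) ≠ 0)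

theorem zcls_succ (n : ℕ) : zcls n = (-2 : ℤ) • zcls (n + 1) := by
  have h1 : chainNetwork.laplacian (single ((1, n) : Vtx) 1) ∈
      (Finsupp.supported ℤ ℤ chain.interior).map chainNetwork.laplacian :=
    Submodule.mem_map_of_mem (Finsupp.single_mem_supported ℤ 1 (one_mem_interior n))
  have h2 : chainNetwork.laplacian (single ((2, n) : Vtx) 1) ∈
      (Finsupp.supported ℤ ℤ chain.interior).map chainNetwork.laplacian :=
    Submodule.mem_map_of_mem (Finsupp.single_mem_supported ℤ 1 (two_mem_interior n))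
  rw [laplacian_x] at h1
  rw [laplacian_x'] at h2
  rw [zcls, zcls, ← Submodule.Quotient.mk_smul, Submodule.Quotient.eq, Network.relations]
  have h3 := Submodule.neg_mem _ (Submodule.add_mem _ h1 h2)
  have h4 : (single ((0, n) : Vtx) 1 - (-2 : ℤ) • single ((0, n + 1) : Vtx) 1 : Vtx →₀ ℤ) =
      -((single ((1, n) : Vtx) 1 - single ((0, n) : Vtx) 1 - single ((2, n) : Vtx) 1
        - single ((0, n + 1) : Vtx) 1) +
        (single ((2, n) : Vtx) 1 - single ((1, n) : Vtx) 1 - single ((0, n + 1) : Vtx) 1)) := by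
    module
  rw [h4]
  exact h3

theorem zcls_eq (n : ℕ) : zcls 0 = ((-2 : ℤ) ^ n) • zcls n := by
  induction n with
  | zero => simp
  | succ n ih => rw [ih, zcls_succ n, smul_smul, pow_succ]

/-- A rational functional on the fundamental module that does not vanish at `z₀`. -/
noncomputable def hfun : (Vtx →₀ ℤ) →ₗ[ℤ] ℚ :=
  Finsupp.linearCombination ℤ fun v : Vtx =>
    if v.1 = 0 then (-1 / 2 : ℚ) ^ v.2 else if v.1 = 1 then -(-1 / 2 : ℚ) ^ (v.2 + 1) else 0

theorem zcls_ne_zero : zcls 0 ≠ 0 := by
  intro h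
  rw [zcls, Submodule.Quotient.mk_eq_zero, Network.relations] at h
  have hker : (Finsupp.supported ℤ ℤ chain.interior).map chainNetwork.laplacian ≤
      LinearMap.ker hfun := by
    rw [Finsupp.supported_eq_span_single, Submodule.map_span, Submodule.span_le]
    rintro _ ⟨_, ⟨⟨i, n⟩, hi, rfl⟩, rfl⟩
    simp only [SetLike.mem_coe, LinearMap.mem_ker]
    fin_cases i
    · exact absurd rfl hi
    · erw [laplacian_x]
      simp only [hfun, map_sub, linearCombination_single]
      simp
      ring
    · erw [laplacian_x']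
      simp only [hfun, map_sub, linearCombination_single]
      simp
  have := hker h
  rw [LinearMap.mem_ker] at this
  simp [hfun] at this

/-- **Disproof of the implication flat implies free for infinite boundary graphs.** There is an
infinite boundary graph `G`, which is moreover simple and connected, such that `Υ_R(G, L)` is flat
for every commutative ring `R` and every network `(G, L)` over `R`, but `Υ_ℤ(G, L)` is not free for
some network `(G, L)` over `ℤ`. -/
theorem result :
    ∃ G : BoundaryGraph, Infinite G.V ∧ G.IsSimple ∧ G.IsConnected ∧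
      (∀ (R : Type u) [CommRing R] (N : G.Network R), Module.Flat R N.Upsilon) ∧
      ∃ N : G.Network ℤ, ¬ Module.Free ℤ N.Upsilon := by
  refine ⟨chain, inferInstanceAs (Infinite (Fin 3 × ℕ)), chain_isSimple, chain_isConnected,
    fun R _ N => flat_of_layerable chain chain_layerable R N, chainNetwork, ?_⟩
  intro hfree
  apply zcls_ne_zero
  obtain ⟨⟨I, b⟩⟩ := hfree.exists_basis
  have hz : b.repr (zcls 0) = 0 := by
    ext i
    by_contra hne
    rw [Finsupp.zero_apply] at hne
    -- the `i`-th coordinate is divisible by all powers of two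
    have hdvd : ∀ n : ℕ, (2 : ℤ) ^ n ∣ b.repr (zcls 0) i := by
      intro n
      rw [zcls_eq n, map_smul, Finsupp.smul_apply, smul_eq_mul]
      refine Dvd.dvd.mul_right ?_ _
      rw [neg_pow]
      exact Dvd.intro_left _ rfl
    have h1 := Int.le_of_dvd (abs_pos.2 hne) ((dvd_abs _ _).2 (hdvd (b.repr (zcls 0) i).natAbs))
    have h2 : ((b.repr (zcls 0) i).natAbs : ℤ) < 2 ^ (b.repr (zcls 0) i).natAbs := by
      exact_mod_cast Nat.lt_two_pow_self
    rw [Int.abs_eq_natAbs] at h1
    omega
  exact (LinearEquiv.map_eq_zero_iff b.repr).1 hz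

end Pool.Agent.Results.MP_2ddb17_co.FlatNotFree
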